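import Pool.Agent.Run7.h286.PL.StmA
import Pool.Agent.Run7.h550.TS.AVG
import Pool.Agent.Run7.h784.TG.SQF3

/-!
# Project PRL: common lemmas for STP, ITR and LAW (helper303)
-/

set_option autoImplicit false
set_option linter.all false

open Polynomial IsDedekindDomain
open scoped Classical

namespace Run7.h303.PL

open Pool.Agent.N874.PP (Ov Ev Sq1)
open Pool.Agent.N352.PJ (IsGen Crd Fam GoodR Ht dsc)
open Run7.h875.TS (dg sz sqL irrD prD uT NRs sqf)
open Run7.h550.TS (mem_prD prD_mul dg_prD sqf_fin mem_irrD)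
open Run7.h784.TG Run7.h286.PL

section prime

variable {k : Type} [Field k] [Finite k]

theorem sqF_eq (B : k[X]) (N : ℕ) : sqF B N = Run7.h550.TS.sq B N := by
  unfold sqF Run7.h550.TS.sq
  rw [dif_pos (sqf_fin B N)]

theorem mem_sqF {B D : k[X]} {N : ℕ} :
    D ∈ sqF B N ↔ D.Monic ∧ D.natDegree = N ∧ Squarefree D ∧ IsCoprime D B := by
  rw [sqF_eq, Run7.h550.TS.mem_sq]

theorem card_sqF (B : k[X]) (N : ℕ) : ((sqF B N).card : ℝ) ≤ (Nat.card k : ℝ) ^ N := by
  rw [sqF_eq]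
  exact_mod_cast Run7.h550.TS.card_sq B N

theorem q_three (h2 : (2 : k) ≠ 0) : (3 : ℝ) ≤ Nat.card k := by
  exact_mod_cast Run7.h784.TS.SQF.three_le h2

end prime

section av

variable {k K L O : Type} [Field k] [Finite k] [Field K] [Algebra k[X] K]
  [IsFractionRing k[X] K]
  [Field L] [Algebra K L] [Algebra k[X] L] [IsScalarTower k[X] K L] [CommRing O]
  [IsDedekindDomain O] [Algebra O L] [IsFractionRing O L] [Algebra k[X] O]
  [IsScalarTower k[X] O L] [IsIntegralClosure O k[X] L]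

theorem av_abs_le (f : k[X][X]) (θ : L) (nrs : k[X] → k[X]) {φ ψ : ℕ → ℝ}
    (h : ∀ d, |φ d| ≤ ψ d) (S : Finset k[X]) :
    |av O K f θ nrs φ S| ≤ av O K f θ nrs ψ S := by
  unfold av
  rw [abs_mul, abs_of_nonneg (by positivity)]
  refine mul_le_mul_of_nonneg_left ?_ (by positivity)
  exact (Finset.abs_sum_le_sum_abs _ _).trans (Finset.sum_le_sum fun T _ => h _)

theorem av_const (f : k[X][X]) (θ : L) (nrs : k[X] → k[X]) (c : ℝ) (S : Finset k[X]) :
    av O K f θ nrs (fun _ => c) S = c := by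
  unfold av
  rw [Finset.sum_const, Finset.card_powerset, nsmul_eq_mul]
  push_cast
  rw [← mul_assoc, ← mul_pow]
  norm_num

theorem av_sub (f : k[X][X]) (θ : L) (nrs : k[X] → k[X]) (φ ψ : ℕ → ℝ) (S : Finset k[X]) :
    av O K f θ nrs (fun d => φ d - ψ d) S = av O K f θ nrs φ S - av O K f θ nrs ψ S := by
  unfold av
  rw [Finset.sum_sub_distrib, mul_sub]

theorem av_smul (f : k[X][X]) (θ : L) (nrs : k[X] → k[X]) (c : ℝ) (φ : ℕ → ℝ) (S : Finset k[X]) :
    av O K f θ nrs (fun d => c * φ d) S = c * av O K f θ nrs φ S := by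
  unfold av
  rw [← Finset.mul_sum]
  ring

theorem av_abs_one (f : k[X][X]) (θ : L) (nrs : k[X] → k[X]) {φ : ℕ → ℝ}
    (h : ∀ d, |φ d| ≤ 1) (S : Finset k[X]) : |av O K f θ nrs φ S| ≤ 1 := by
  have := av_abs_le (O := O) (K := K) f θ nrs h S
  rwa [av_const] at this

theorem bD_mul {l M : ℕ} {D Q : k[X]} (hD : D.Monic) (hQ : Q.Monic) (hQ' : Irreducible Q)
    (hd : ¬ Q ∣ D) (h1 : nr O Q ≤ l) (h2 : M < Q.natDegree) :
    bD O l M (D * Q) = bD O l M D + 1 := by
  unfold bD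
  rw [prD_mul hD hQ hQ', Finset.filter_insert, if_pos ⟨h1, h2⟩, Finset.card_insert_of_notMem]
  intro h
  exact hd ((mem_prD hD.ne_zero).1 (Finset.mem_filter.1 h).1).2.2

end av

end Run7.h303.PL
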