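import Pool.Agent.Run7.h303.PL.Base

/-!
# Project PRL: piece LAW (helper303)
-/

set_option autoImplicit false
set_option linter.all false

open Polynomial IsDedekindDomain Filter
open scoped Classical

namespace Run7.h303.PL

open Pool.Agent.N874.PP (Ov Ev Sq1)
open Pool.Agent.N352.PJ (IsGen Crd Fam GoodR Ht dsc)
open Run7.h875.TS (dg sz sqL irrD prD uT NRs sqf)
open Run7.h550.TS (mem_prD prD_mul dg_prD sqf_fin mem_irrD)
open Run7.h784.TG Run7.h286.PL

/-- Copy of `Run7.h68.TG.exists_NRs2` (helper68). -/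
theorem exists_NRs2 (k : Type) [Field k] [Finite k] (h2 : (2 : k) ≠ 0) :
    ∃ g : k[X] → k[X], NRs g := by
  have h : ∀ P : k[X], Irreducible P → ∃ y : k[X], ∀ z : k[X], ¬ P ∣ z ^ 2 - y := by
    intro P hP
    haveI : Fact (Irreducible P) := ⟨hP⟩
    haveI : Finite (AdjoinRoot P) := by
      haveI : Module.Finite k (AdjoinRoot P) := (AdjoinRoot.powerBasis hP.ne_zero).finite
      exact Module.finite_of_finite k
    haveI := Fintype.ofFinite (AdjoinRoot P)
    have h2' : ringChar (AdjoinRoot P) ≠ 2 := by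
      intro h2'
      have h3 : ((2 : ℕ) : AdjoinRoot P) = 0 := by
        rw [← h2']
        exact ringChar.Nat.cast_ringChar
      have h4 : algebraMap k (AdjoinRoot P) 2 = 0 := by
        rw [map_ofNat]
        exact_mod_cast h3
      exact h2 ((map_eq_zero _).1 h4)
    obtain ⟨y, hy⟩ := FiniteField.exists_nonsquare h2'
    obtain ⟨y, rfl⟩ := AdjoinRoot.mk_surjective y
    refine ⟨y, fun z hz => hy ⟨AdjoinRoot.mk P z, ?_⟩⟩
    rw [← map_mul, eq_comm, AdjoinRoot.mk_eq_mk, ← pow_two]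
    exact hz
  choose! g hg using h
  exact ⟨g, hg⟩

theorem T_LAW (hNAT : P_NAT) (hITR : P_ITR) : P_LAW := by
  intro k K L O _ _ _ _ _ _ _ _ _ _ _ _ _ _ _ _ g N r f θ hF hFull hθ φ hφ
  obtain ⟨nrs, hnrs⟩ := exists_NRs2 k hF.two
  obtain ⟨hfin, c, hc, N₁, hN₁⟩ := T_SQF3 k hF.two (dsc g f) hF.fam.sq.ne_zero
  have hq := q_three hF.two
  have hcard : ∀ m, ((sqF (dsc g f) m).card : ℝ) = ((sqf (dsc g f) m).ncard : ℝ) := by
    intro m
    rw [Set.ncard_eq_toFinset_card _ (hfin m)]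
    unfold sqF
    rw [dif_pos (hfin m)]
  rw [Metric.tendsto_atTop]
  intro ε hε
  obtain ⟨N₂, hN₂⟩ := hNAT k K L O g N r f θ hF hFull hθ nrs hnrs φ hφ (c * ε / 3) (by positivity)
  obtain ⟨N₃, hN₃⟩ := hITR k K L O g N r f θ hF hFull hθ nrs hnrs φ hφ (c * ε / 3) (by positivity)
  refine ⟨max N₁ (max N₂ N₃), fun m hm => ?_⟩
  have h1 := hN₁ m (le_trans (le_max_left _ _) hm)
  have h2 := hN₂ m (le_trans (le_trans (le_max_left _ _) (le_max_right _ _)) hm)
  have h3 := hN₃ m (le_trans (le_trans (le_max_right _ _) (le_max_right _ _)) hm)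
  rw [← hcard] at h1
  set q : ℝ := (Nat.card k : ℝ) with hqdef
  have hq0 : (0 : ℝ) < q ^ m := by
    have : (0 : ℝ) < q := by linarith
    positivity
  have hpos : (0 : ℝ) < ((sqF (dsc g f) m).card : ℝ) := lt_of_lt_of_le (by positivity) h1
  rw [Real.dist_eq]
  have h4 : (∑ D ∈ sqF (dsc g f) m, φ (dimS O K f θ D)) / ((sqF (dsc g f) m).card : ℝ) - Lw φ =
      ((∑ D ∈ sqF (dsc g f) m, φ (dimS O K f θ D) -
        ∑ D ∈ sqF (dsc g f) m, av O K f θ nrs φ (prD D)) +
        ∑ D ∈ sqF (dsc g f) m, (av O K f θ nrs φ (prD D) - Lw φ)) /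
          ((sqF (dsc g f) m).card : ℝ) := by
    rw [Finset.sum_sub_distrib (f := fun D => av O K f θ nrs φ (prD D)), Finset.sum_const,
      nsmul_eq_mul]
    field_simp
    ring
  rw [h4, abs_div, abs_of_pos hpos, div_lt_iff₀ hpos]
  calc _ ≤ c * ε / 3 * q ^ m + c * ε / 3 * q ^ m := (abs_add_le _ _).trans (add_le_add h2 h3)
    _ = (2 / 3 * ε) * (c * q ^ m) := by ring
    _ < ε * (c * q ^ m) := mul_lt_mul_of_pos_right (by linarith) (by positivity)
    _ ≤ ε * ((sqF (dsc g f) m).card : ℝ) := mul_le_mul_of_nonneg_left h1 hε.le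

end Run7.h303.PL
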