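import Pool.Agent.Run7.h303.PL.Base

/-!
# Project PRL: piece ITR (helper303)
-/

set_option autoImplicit false
set_option linter.all false

open Polynomial IsDedekindDomain
open scoped Classical

namespace Run7.h303.PL

open Pool.Agent.N874.PP (Ov Ev Sq1)
open Pool.Agent.N352.PJ (IsGen Crd Fam GoodR Ht dsc)
open Run7.h875.TS (dg sz sqL irrD prD uT NRs sqf)
open Run7.h550.TS (mem_prD prD_mul dg_prD sqf_fin mem_irrD)
open Run7.h784.TG Run7.h286.PL

/-! ### The abstract iteration -/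

theorem iter_bound (N R M : ℕ) (δ lam E D : ℝ) (hδ : 0 ≤ δ) (hlam : 0 ≤ lam) (hE : 0 ≤ E)
    (hD : 0 ≤ D) (hs : ∑ m ∈ Finset.Ioc M N, δ / m ≤ lam) (d : ℕ → ℕ → ℝ)
    (h1 : ∀ i < R, ∀ j ≤ N, |d i j - ∑ m ∈ Finset.Ioc M j, δ / m * d (i + 1) (j - m)| ≤ E)
    (h2 : ∀ j ≤ N, |d R j| ≤ D) :
    ∀ i ≤ R, ∀ j ≤ N, |d (R - i) j| ≤ lam ^ i * D + E * ∑ s ∈ Finset.range i, lam ^ s := by
  intro i
  induction i with
  | zero =>
    intro _ j hj
    simpa using h2 j hj
  | succ i ih =>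
    intro hi j hj
    have e : R - i = R - (i + 1) + 1 := by omega
    have h3 := h1 (R - (i + 1)) (by omega) j hj
    rw [← e] at h3
    set X := lam ^ i * D + E * ∑ s ∈ Finset.range i, lam ^ s with hX
    have hX0 : 0 ≤ X := by positivity
    have h4 : |∑ m ∈ Finset.Ioc M j, δ / m * d (R - i) (j - m)| ≤ lam * X := by
      refine (Finset.abs_sum_le_sum_abs _ _).trans ?_
      refine (Finset.sum_le_sum (g := fun m : ℕ => δ / m * X) fun m hm => ?_).trans ?_
      · rw [abs_mul, abs_of_nonneg (by positivity)]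
        exact mul_le_mul_of_nonneg_left (ih (by omega) (j - m) (by omega)) (by positivity)
      · rw [← Finset.sum_mul]
        refine mul_le_mul_of_nonneg_right ?_ hX0
        refine le_trans ?_ hs
        refine Finset.sum_le_sum_of_subset_of_nonneg ?_ fun m _ _ => by positivity
        exact Finset.Ioc_subset_Ioc_right hj
    have h5 : |d (R - (i + 1)) j| ≤ E + lam * X := by
      calc |d (R - (i + 1)) j| = |(d (R - (i + 1)) j - ∑ m ∈ Finset.Ioc M j, δ / m *
            d (R - i) (j - m)) + ∑ m ∈ Finset.Ioc M j, δ / m * d (R - i) (j - m)| := by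
            congr 1; ring
        _ ≤ _ := (abs_add_le _ _).trans (add_le_add h3 h4)
    refine h5.trans (le_of_eq ?_)
    rw [hX, Finset.sum_range_succ', pow_zero, mul_add, mul_add, mul_one, Finset.mul_sum,
      Finset.mul_sum, Finset.mul_sum]
    have e2 : ∑ s ∈ Finset.range i, E * lam ^ (s + 1) = ∑ s ∈ Finset.range i, lam * (E * lam ^ s) :=
      Finset.sum_congr rfl fun s _ => by ring
    rw [e2]
    ring

theorem geo_le (R : ℕ) (lam : ℝ) (hlam : 0 ≤ lam) :
    ∑ s ∈ Finset.range R, lam ^ s ≤ R * (1 + lam) ^ R := by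
  have : ∀ s ∈ Finset.range R, lam ^ s ≤ (1 + lam) ^ R := by
    intro s hs
    rw [Finset.mem_range] at hs
    calc lam ^ s ≤ (1 + lam) ^ s := pow_le_pow_left₀ hlam (by linarith) s
      _ ≤ (1 + lam) ^ R := pow_le_pow_right₀ (by linarith) hs.le
  refine (Finset.sum_le_sum this).trans ?_
  rw [Finset.sum_const, Finset.card_range, nsmul_eq_mul]

theorem harm_le (δ : ℝ) (hδ : 0 ≤ δ) {M N : ℕ} (hM : 1 ≤ M) (hMN : M ≤ N) :
    ∑ m ∈ Finset.Ioc M N, δ / m ≤ δ * Real.log ((N : ℝ) / M) := by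
  have hM0 : (0 : ℝ) < M := by exact_mod_cast hM
  induction N, hMN using Nat.le_induction with
  | base =>
    rw [Finset.Ioc_self, Finset.sum_empty, div_self hM0.ne', Real.log_one, mul_zero]
  | succ N hN ih =>
    rw [← Finset.insert_Ioc_right_eq_Ioc_add_one hN, Finset.sum_insert (by simp)]
    have hN0 : (0 : ℝ) < N := by
      have : 1 ≤ N := hM.trans hN
      exact_mod_cast this
    have h1 : 1 / ((N + 1 : ℕ) : ℝ) ≤ Real.log (((N + 1 : ℕ) : ℝ) / N) := by
      have h2 := Real.log_le_sub_one_of_pos (show (0 : ℝ) < N / ((N + 1 : ℕ) : ℝ) by positivity)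
      rw [Real.log_div hN0.ne' (by positivity)] at h2
      rw [Real.log_div (by positivity) hN0.ne']
      have e : (N : ℝ) / ((N + 1 : ℕ) : ℝ) - 1 = - (1 / ((N + 1 : ℕ) : ℝ)) := by
        push_cast
        field_simp
        ring
      rw [e] at h2
      linarith
    have h3 : Real.log (((N + 1 : ℕ) : ℝ) / M) =
        Real.log (((N + 1 : ℕ) : ℝ) / N) + Real.log ((N : ℝ) / M) := by
      rw [← Real.log_mul (by positivity) (by positivity)]
      congr 1
      field_simp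
    rw [h3, mul_add]
    have h4 : δ / ((N + 1 : ℕ) : ℝ) = δ * (1 / ((N + 1 : ℕ) : ℝ)) := by ring
    rw [h4]
    have := mul_le_mul_of_nonneg_left h1 hδ
    linarith

/-! ### The weights -/

noncomputable def vD (B₁ i b : ℕ) : ℝ := if b = 0 then 0 else wD B₁ i b / b

theorem wD_nonneg (B₁ i b : ℕ) : 0 ≤ wD B₁ i b := by
  unfold wD
  split_ifs <;> positivity

theorem wD_le_one (B₁ i b : ℕ) : wD B₁ i b ≤ 1 := by
  unfold wD
  split_ifs
  · have h : 0 < (b + i).descFactorial i := Nat.descFactorial_pos.2 (by omega)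
    have h' : (1 : ℝ) ≤ (b + i).descFactorial i := by exact_mod_cast h
    rw [div_le_one (by linarith)]
    exact h'
  · norm_num

theorem vD_le (B₁ i b : ℕ) : |vD B₁ i b| ≤ 1 := by
  unfold vD
  split_ifs with h
  · simp
  · have hb : (1 : ℝ) ≤ b := by exact_mod_cast Nat.one_le_iff_ne_zero.2 h
    rw [abs_of_nonneg (div_nonneg (wD_nonneg _ _ _) (by linarith)), div_le_one (by linarith)]
    exact (wD_le_one _ _ _).trans hb

theorem wD_eq {B₁ i : ℕ} (hi : i < B₁) (b : ℕ) : wD B₁ i b = b * vD B₁ i b := by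
  unfold vD
  split_ifs with h
  · subst h
    unfold wD
    rw [if_neg (by omega), mul_zero]
  · have hb : (b : ℝ) ≠ 0 := by exact_mod_cast h
    field_simp

theorem vD_succ (B₁ i b : ℕ) : vD B₁ i (b + 1) = wD B₁ (i + 1) b := by
  unfold vD
  rw [if_neg (by omega)]
  unfold wD
  have e : b + 1 + i = b + (i + 1) := by ring
  rw [e]
  split_ifs with h
  · have h1 : (b + (i + 1)).descFactorial (i + 1) = (b + 1) * (b + (i + 1)).descFactorial i := by
      rw [Nat.descFactorial_succ]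
      congr 1
      omega
    rw [h1]
    push_cast
    have h2 : 0 < (b + (i + 1)).descFactorial i := Nat.descFactorial_pos.2 (by omega)
    have h3 : ((b + (i + 1)).descFactorial i : ℝ) ≠ 0 := by positivity
    field_simp
  · simp

theorem wD_le {B₁ R : ℕ} (h : R < B₁) (b : ℕ) : wD B₁ R b ≤ 1 / ((B₁ - R : ℕ) : ℝ) ^ R := by
  unfold wD
  have h0 : (0 : ℝ) < ((B₁ - R : ℕ) : ℝ) := by exact_mod_cast Nat.sub_pos_of_lt h
  split_ifs with hb
  · refine one_div_le_one_div_of_le (by positivity) ?_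
    have h1 := Nat.pow_sub_le_descFactorial (b + R) R
    have h2 : (B₁ - R) ^ R ≤ (b + R).descFactorial R := by
      refine le_trans (Nat.pow_le_pow_left ?_ R) h1
      omega
    exact_mod_cast h2
  · positivity

/-! ### The chain -/

theorem Mz_smul_sub (ρ ℓ : ℝ) (ψ : ℕ → ℝ) :
    Mz ρ (fun d => (ψ d - ℓ) / 2) = fun d => (Mz ρ ψ d - ℓ) / 2 := by
  funext d
  unfold Mz Mk
  ring

theorem lw_le (hMC : P_MC) {φ : ℕ → ℝ} (hφ : ∀ d, |φ d| ≤ 1) : |Lw φ| ≤ 1 := by
  obtain ⟨C, κ, hC, hκ, hκ1, h⟩ := hMC (1 / 2) (by norm_num) (by norm_num)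
  have h1 : ∀ R : ℕ, |Lw φ| ≤ 1 + C * κ ^ R := by
    intro R
    obtain ⟨h2, h3⟩ := h φ hφ R 0
    rw [pow_zero, mul_one] at h3
    have := abs_sub_abs_le_abs_sub (Lw φ) ((Mz (1 / 2))^[R] φ 0)
    rw [abs_sub_comm] at this
    linarith
  have h4 : Filter.Tendsto (fun R : ℕ => 1 + C * κ ^ R) Filter.atTop (nhds (1 + C * 0)) :=
    ((tendsto_pow_atTop_nhds_zero_of_lt_one hκ.le hκ1).const_mul C).const_add 1
  rw [mul_zero, add_zero] at h4
  exact ge_of_tendsto' h4 h1

theorem ld_le {L : Type} [Field L] (G : Subgroup Lˣ) : (2 : ℝ) ^ ld G ≤ 1 + sz G := by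
  unfold ld
  rcases Nat.eq_zero_or_pos (sz G) with h | h
  · rw [h]; simp
  · have h1 : 2 ^ Nat.log 2 (sz G) ≤ sz G := Nat.pow_log_le_self 2 h.ne'
    have h2 : ((2 : ℝ)) ^ Nat.log 2 (sz G) ≤ sz G := by exact_mod_cast h1
    linarith

end Run7.h303.PL
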