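import Pool.Agent.Run7.h303.PL.ITR

/-!
# Project PRL: piece ITR, asymptotics and the theorem (helper303)
-/

set_option autoImplicit false
set_option linter.all false

open Polynomial IsDedekindDomain Filter
open scoped Classical

namespace Run7.h303.PL

open Pool.Agent.N874.PP (Ov Ev Sq1)
open Pool.Agent.N352.PJ (IsGen Crd Fam GoodR Ht dsc)
open Run7.h875.TS (dg sz sqL irrD prD uT NRs sqf)
open Run7.h550.TS (mem_prD prD_mul dg_prD sqf_fin mem_irrD)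
open Run7.h784.TG Run7.h286.PL

/-! ### Asymptotics -/

noncomputable def lamN (δ : ℝ) (N : ℕ) : ℝ := δ * Real.log ((N : ℝ) / (Nat.sqrt N : ℕ))

theorem sqrt_tendsto : Tendsto Nat.sqrt atTop atTop := by
  rw [tendsto_atTop_atTop]
  intro b
  exact ⟨b * b, fun a ha => Nat.le_sqrt.2 ha⟩

theorem lamN_ge {δ : ℝ} (hδ : 0 ≤ δ) {N : ℕ} (hN : 1 ≤ Nat.sqrt N) :
    δ * Real.log (Nat.sqrt N : ℕ) ≤ lamN δ N := by
  have h0 : (0 : ℝ) < (Nat.sqrt N : ℕ) := by exact_mod_cast hN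
  have h1 : ((Nat.sqrt N : ℕ) : ℝ) * (Nat.sqrt N : ℕ) ≤ N := by exact_mod_cast Nat.sqrt_le N
  refine mul_le_mul_of_nonneg_left (Real.log_le_log h0 ?_) hδ
  rw [le_div_iff₀ h0]
  exact h1

theorem lamN_nonneg {δ : ℝ} (hδ : 0 ≤ δ) {N : ℕ} (hN : 1 ≤ Nat.sqrt N) : 0 ≤ lamN δ N := by
  refine le_trans ?_ (lamN_ge hδ hN)
  exact mul_nonneg hδ (Real.log_nonneg (by exact_mod_cast hN))

theorem N_le {N : ℕ} (hN : 1 ≤ Nat.sqrt N) : (N : ℝ) ≤ 4 * (Nat.sqrt N : ℕ) ^ 2 := by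
  have h1 : N < (Nat.sqrt N + 1) * (Nat.sqrt N + 1) := Nat.lt_succ_sqrt N
  have h2 : N ≤ 4 * Nat.sqrt N ^ 2 := by nlinarith
  exact_mod_cast h2

theorem lamN_le {δ : ℝ} (hδ : 0 ≤ δ) {N : ℕ} (hN : 1 ≤ Nat.sqrt N) :
    1 + lamN δ N ≤ (1 + 4 * δ) * (Nat.sqrt N : ℕ) ^ 2 := by
  have h0 : (1 : ℝ) ≤ (Nat.sqrt N : ℕ) := by exact_mod_cast hN
  have h1 : Real.log ((N : ℝ) / (Nat.sqrt N : ℕ)) ≤ 4 * (Nat.sqrt N : ℕ) ^ 2 := by
    refine (Real.log_le_self (by positivity)).trans (le_trans ?_ (N_le hN))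
    exact div_le_self (Nat.cast_nonneg _) h0
  have h2 : lamN δ N ≤ δ * (4 * (Nat.sqrt N : ℕ) ^ 2) := mul_le_mul_of_nonneg_left h1 hδ
  have h3 : (1 : ℝ) ≤ (Nat.sqrt N : ℕ) ^ 2 := one_le_pow₀ h0
  nlinarith

theorem F1_tendsto (C₀ q δ : ℝ) (hC : 0 ≤ C₀) (hδ : 0 ≤ δ) (hq : 3 ≤ q) (R : ℕ) :
    Tendsto (fun N : ℕ => C₀ * (1 + N) / √(q ^ (Nat.sqrt N)) * (R * (1 + lamN δ N) ^ R)) atTop
      (nhds 0) := by
  have hs1 : 1 < √q := by
    rw [Real.lt_sqrt (by norm_num)]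
    linarith
  have h1 : Tendsto (fun N : ℕ => C₀ * 5 * R * (1 + 4 * δ) ^ R *
      (((Nat.sqrt N : ℕ) : ℝ) ^ (2 * R + 2) / (√q) ^ (Nat.sqrt N))) atTop
      (nhds (C₀ * 5 * R * (1 + 4 * δ) ^ R * 0)) :=
    ((tendsto_pow_const_div_const_pow_of_one_lt (2 * R + 2) hs1).comp sqrt_tendsto).const_mul _
  rw [mul_zero] at h1
  refine squeeze_zero' ?_ ?_ h1
  · filter_upwards [sqrt_tendsto.eventually_ge_atTop 1] with N hN
    have := lamN_nonneg hδ hN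
    positivity
  · filter_upwards [sqrt_tendsto.eventually_ge_atTop 1] with N hN
    have h2 := lamN_nonneg hδ hN
    have h3 := lamN_le hδ hN
    have h4 := N_le hN
    have h0 : (1 : ℝ) ≤ (Nat.sqrt N : ℕ) := by exact_mod_cast hN
    have h5 : (1 : ℝ) ≤ (Nat.sqrt N : ℕ) ^ 2 := one_le_pow₀ h0
    have h6 : (1 : ℝ) + N ≤ 5 * (Nat.sqrt N : ℕ) ^ 2 := by linarith
    have hsq : √(q ^ (Nat.sqrt N)) = √q ^ (Nat.sqrt N) :=
      Real.sqrt_eq_iff_mul_self_eq (by positivity) (by positivity) |>.2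
        (by rw [← mul_pow, Real.mul_self_sqrt (by linarith)])
    rw [hsq]
    have h7 : (1 + lamN δ N) ^ R ≤ ((1 + 4 * δ) * (Nat.sqrt N : ℕ) ^ 2) ^ R :=
      pow_le_pow_left₀ (by linarith) h3 R
    calc C₀ * (1 + N) / √q ^ (Nat.sqrt N) * (R * (1 + lamN δ N) ^ R)
        ≤ C₀ * (5 * (Nat.sqrt N : ℕ) ^ 2) / √q ^ (Nat.sqrt N) *
          (R * ((1 + 4 * δ) * (Nat.sqrt N : ℕ) ^ 2) ^ R) := by gcongr
      _ = C₀ * 5 * R * (1 + 4 * δ) ^ R *
          (((Nat.sqrt N : ℕ) : ℝ) ^ (2 * R + 2) / (√q) ^ (Nat.sqrt N)) := by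
          rw [mul_pow, ← pow_mul, pow_add]
          ring

theorem F2_tendsto (C t δ : ℝ) (R : ℕ) (ht : 0 < t) (ht1 : t < 1) (hδ : 0 < δ) (hC : 0 ≤ C) :
    Tendsto (fun N : ℕ => C * (t⁻¹) ^ (R + ⌈t * lamN δ N⌉₊) *
      (((Nat.sqrt N : ℕ) : ℝ) / N) ^ ((1 - t) * δ)) atTop (nhds 0) := by
  have hti : 1 < t⁻¹ := (one_lt_inv₀ ht).2 ht1
  obtain ⟨c, hc⟩ : ∃ c : ℝ, c = (1 - t) - t * Real.log (t⁻¹) := ⟨_, rfl⟩
  have hc0 : 0 < c := by
    have h1 := Real.log_lt_sub_one_of_pos (inv_pos.2 ht) hti.ne'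
    have h2 := mul_lt_mul_of_pos_left h1 ht
    rw [mul_sub, mul_inv_cancel₀ ht.ne', mul_one] at h2
    rw [hc]
    linarith
  have hlam : Tendsto (fun N : ℕ => lamN δ N) atTop atTop := by
    have h1 : Tendsto (fun N : ℕ => δ * Real.log (Nat.sqrt N : ℕ)) atTop atTop :=
      ((Real.tendsto_log_atTop.comp tendsto_natCast_atTop_atTop).comp sqrt_tendsto).const_mul_atTop hδ
    refine tendsto_atTop_mono' _ ?_ h1
    filter_upwards [sqrt_tendsto.eventually_ge_atTop 1] with N hN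
    exact lamN_ge hδ.le hN
  have h1 : Tendsto (fun N : ℕ => C * (t⁻¹) ^ (R + 1) * Real.exp (-(c * lamN δ N))) atTop
      (nhds (C * (t⁻¹) ^ (R + 1) * 0)) :=
    (Real.tendsto_exp_neg_atTop_nhds_zero.comp (hlam.const_mul_atTop hc0)).const_mul _
  rw [mul_zero] at h1
  refine squeeze_zero' ?_ ?_ h1
  · filter_upwards with N
    positivity
  · filter_upwards [sqrt_tendsto.eventually_ge_atTop 1] with N hN
    have h2 := lamN_nonneg hδ.le hN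
    have h0 : (0 : ℝ) < (Nat.sqrt N : ℕ) := by exact_mod_cast hN
    have hN0 : (0 : ℝ) < N := by
      have : 1 ≤ N := hN.trans (Nat.sqrt_le_self N)
      exact_mod_cast this
    have e1 : (((Nat.sqrt N : ℕ) : ℝ) / N) ^ ((1 - t) * δ) = Real.exp (-((1 - t) * lamN δ N)) := by
      rw [Real.rpow_def_of_pos (by positivity)]
      congr 1
      unfold lamN
      rw [Real.log_div h0.ne' hN0.ne', Real.log_div hN0.ne' h0.ne']
      ring
    have e2 : (t⁻¹) ^ (R + ⌈t * lamN δ N⌉₊) ≤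
        (t⁻¹) ^ (R + 1) * Real.exp (t * lamN δ N * Real.log (t⁻¹)) := by
      have h3 : ((⌈t * lamN δ N⌉₊ : ℕ) : ℝ) ≤ t * lamN δ N + 1 :=
        (Nat.ceil_lt_add_one (by positivity)).le
      have h4 : (t⁻¹) ^ (⌈t * lamN δ N⌉₊) ≤ (t⁻¹) ^ (t * lamN δ N + 1 : ℝ) := by
        rw [← Real.rpow_natCast]
        exact Real.rpow_le_rpow_of_exponent_le hti.le h3
      rw [Real.rpow_add_one (by positivity), Real.rpow_def_of_pos (by positivity)] at h4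
      rw [pow_add, pow_succ, mul_assoc]
      refine mul_le_mul_of_nonneg_left ?_ (by positivity)
      refine h4.trans (le_of_eq ?_)
      rw [mul_comm (Real.log _)]
      ring
    rw [e1]
    calc C * (t⁻¹) ^ (R + ⌈t * lamN δ N⌉₊) * Real.exp (-((1 - t) * lamN δ N))
        ≤ C * ((t⁻¹) ^ (R + 1) * Real.exp (t * lamN δ N * Real.log (t⁻¹))) *
          Real.exp (-((1 - t) * lamN δ N)) := by gcongr
      _ = C * (t⁻¹) ^ (R + 1) * (Real.exp (t * lamN δ N * Real.log (t⁻¹)) *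
          Real.exp (-((1 - t) * lamN δ N))) := by ring
      _ = C * (t⁻¹) ^ (R + 1) * Real.exp (-(c * lamN δ N)) := by
          rw [← Real.exp_add, hc]
          congr 2
          ring

end Run7.h303.PL
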